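import Pool.Agent.L7h67.K4.Stm

set_option autoImplicit false

/-!
# Positivity of the convolution of four quadratic characters with product `1`
-/

namespace Pool.Agent.L7h60.K4

open Finset Pool.Agent.L7h67.K4

variable {m : ℕ}

theorem af_apply (χ : DirichletCharacter ℤ m) {n : ℕ} (hn : n ≠ 0) :
    af χ n = χ (n : ZMod m) := if_neg hn

theorem af_pow (χ : DirichletCharacter ℤ m) {p : ℕ} (hp : p.Prime) (e : ℕ) :
    af χ (p ^ e) = χ (p : ZMod m) ^ e := by
  rw [af_apply χ (pow_ne_zero _ hp.ne_zero), Nat.cast_pow, map_pow]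

theorem af_mult (χ : DirichletCharacter ℤ m) : (af χ).IsMultiplicative := by
  rw [ArithmeticFunction.IsMultiplicative.iff_ne_zero]
  refine ⟨by rw [af_apply χ one_ne_zero, Nat.cast_one, map_one], ?_⟩
  intro a b ha hb _
  rw [af_apply χ ha, af_apply χ hb, af_apply χ (mul_ne_zero ha hb), Nat.cast_mul, map_mul]

theorem F4_mult (χ : Fin 4 → DirichletCharacter ℤ m) : (F4 χ).IsMultiplicative :=
  (((af_mult _).mul (af_mult _)).mul (af_mult _)).mul (af_mult _)

theorem mul_pp (f g : ArithmeticFunction ℤ) {p : ℕ} (hp : p.Prime) (e : ℕ) :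
    (f * g) (p ^ e) = ∑ i ∈ range (e + 1), f (p ^ i) * g (p ^ (e - i)) := by
  rw [ArithmeticFunction.mul_apply, Nat.sum_divisorsAntidiagonal (fun a b => f a * g b),
    Nat.divisors_prime_pow hp, Finset.sum_map]
  refine sum_congr rfl fun i hi => ?_
  have hi' : i ≤ e := by simpa [Nat.lt_succ_iff] using hi
  simp only [Function.Embedding.coeFn_mk]
  rw [Nat.pow_div hi' hp.pos]

theorem nonneg_mul {f g : ArithmeticFunction ℤ} {p : ℕ} (hp : p.Prime)
    (hf : ∀ e, 0 ≤ f (p ^ e)) (hg : ∀ e, 0 ≤ g (p ^ e)) (e : ℕ) : 0 ≤ (f * g) (p ^ e) := by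
  rw [mul_pp f g hp]
  exact sum_nonneg fun i _ => mul_nonneg (hf _) (hg _)

theorem one_le_mul' {f g : ArithmeticFunction ℤ} {p : ℕ} (hp : p.Prime)
    (hf : ∀ e, 1 ≤ f (p ^ e)) (hg : ∀ e, 1 ≤ g (p ^ e)) (e : ℕ) : 1 ≤ (f * g) (p ^ e) := by
  rw [mul_pp f g hp]
  have h1 : ∀ i ∈ range (e + 1), (1 : ℤ) ≤ f (p ^ i) * g (p ^ (e - i)) := by
    intro i _
    have := hf i
    have := hg (e - i)
    nlinarith
  have h2 := sum_le_sum h1
  rw [sum_const, card_range, nsmul_eq_mul, mul_one] at h2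
  refine le_trans ?_ h2
  push_cast
  omega

theorem pm_mul {f g : ArithmeticFunction ℤ} {p : ℕ} (hp : p.Prime)
    (hf : ∀ e, f (p ^ e) = 1) (hg : ∀ e, g (p ^ e) = (-1) ^ e) (e : ℕ) :
    (f * g) (p ^ e) = if Even e then 1 else 0 := by
  rw [mul_pp f g hp]
  simp only [hf, hg, one_mul]
  have h1 := Finset.sum_flip (n := e) (fun i => (-1 : ℤ) ^ i)
  rw [h1, neg_one_geom_sum]
  by_cases he : Even e
  · rw [if_pos he, if_neg (by rw [Nat.even_add_one]; exact not_not.2 he)]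
  · rw [if_neg he, if_pos (by rw [Nat.even_add_one]; exact he)]

theorem even_mul {F G : ArithmeticFunction ℤ} {p : ℕ} (hp : p.Prime)
    (hF : ∀ e, F (p ^ e) = if Even e then 1 else 0) (hG : ∀ e, G (p ^ e) = if Even e then 1 else 0)
    (e : ℕ) : 0 ≤ (F * G) (p ^ e) ∧ (Even e → 1 ≤ (F * G) (p ^ e)) := by
  have h0 : ∀ e, 0 ≤ F (p ^ e) := by intro e; rw [hF]; split_ifs <;> norm_num
  have h0' : ∀ e, 0 ≤ G (p ^ e) := by intro e; rw [hG]; split_ifs <;> norm_num
  refine ⟨nonneg_mul hp h0 h0' e, fun he => ?_⟩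
  rw [mul_pp F G hp]
  have h1 : F (p ^ 0) * G (p ^ (e - 0)) ≤ ∑ i ∈ range (e + 1), F (p ^ i) * G (p ^ (e - i)) :=
    single_le_sum (f := fun i => F (p ^ i) * G (p ^ (e - i)))
      (fun i _ => mul_nonneg (h0 _) (h0' _)) (mem_range.2 (Nat.succ_pos e))
  refine le_trans ?_ h1
  rw [hF, hG, Nat.sub_zero, if_pos he, if_pos (by exact ⟨0, rfl⟩)]
  norm_num

/-- the values at the powers of one prime -/
theorem F4_pp (χ : Fin 4 → DirichletCharacter ℤ m) (hq : ∀ i, (χ i).IsQuadratic)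
    (h1 : χ 0 * χ 1 * χ 2 * χ 3 = 1) {p : ℕ} (hp : p.Prime)
    (hno : ¬ ∀ i, χ i (p : ZMod m) = -1) (e : ℕ) :
    0 ≤ F4 χ (p ^ e) ∧ (IsUnit (p : ZMod m) → Even e → 1 ≤ F4 χ (p ^ e)) := by
  by_cases hu : IsUnit (p : ZMod m)
  · have hv : ∀ i, χ i (p : ZMod m) = 1 ∨ χ i (p : ZMod m) = -1 := by
      intro i
      rcases hq i (p : ZMod m) with h | h
      · exact absurd h ((hu.map (χ i)).ne_zero)
      · exact h
    have hpr : χ 0 (p : ZMod m) * χ 1 (p : ZMod m) * χ 2 (p : ZMod m) * χ 3 (p : ZMod m) = 1 := by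
      have h2 := congrArg (fun ψ : DirichletCharacter ℤ m => ψ (p : ZMod m)) h1
      simp only [MulChar.mul_apply] at h2
      rw [h2, MulChar.one_apply hu]
    have hone : ∀ i, χ i (p : ZMod m) = 1 → ∀ k, af (χ i) (p ^ k) = 1 := by
      intro i h k
      rw [af_pow _ hp, h, one_pow]
    have hneg : ∀ i, χ i (p : ZMod m) = -1 → ∀ k, af (χ i) (p ^ k) = (-1) ^ k := by
      intro i h k
      rw [af_pow _ hp, h]
    -- two `+1` and two `-1`
    have mix : ∀ i j k l : Fin 4, χ i (p : ZMod m) = 1 → χ j (p : ZMod m) = -1 →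
        χ k (p : ZMod m) = 1 → χ l (p : ZMod m) = -1 →
        F4 χ = af (χ i) * af (χ j) * (af (χ k) * af (χ l)) →
        0 ≤ F4 χ (p ^ e) ∧ (IsUnit (p : ZMod m) → Even e → 1 ≤ F4 χ (p ^ e)) := by
      intro i j k l hi hj hk hl hF
      have h3 := even_mul hp (pm_mul hp (hone i hi) (hneg j hj)) (pm_mul hp (hone k hk) (hneg l hl)) e
      rw [hF]
      exact ⟨h3.1, fun _ => h3.2⟩
    rcases hv 0 with a0 | a0 <;> rcases hv 1 with a1 | a1 <;> rcases hv 2 with a2 | a2 <;>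
      rcases hv 3 with a3 | a3
    · have h3 : ∀ e, 1 ≤ F4 χ (p ^ e) := by
        intro e
        exact one_le_mul' hp (one_le_mul' hp (one_le_mul' hp (fun k => (hone 0 a0 k).ge)
          (fun k => (hone 1 a1 k).ge)) (fun k => (hone 2 a2 k).ge)) (fun k => (hone 3 a3 k).ge) e
      exact ⟨zero_le_one.trans (h3 e), fun _ _ => h3 e⟩
    · rw [a0, a1, a2, a3] at hpr; norm_num at hpr
    · rw [a0, a1, a2, a3] at hpr; norm_num at hpr
    · exact mix 0 2 1 3 a0 a2 a1 a3 (by unfold F4; ring)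
    · rw [a0, a1, a2, a3] at hpr; norm_num at hpr
    · exact mix 0 1 2 3 a0 a1 a2 a3 (by unfold F4; ring)
    · exact mix 0 1 3 2 a0 a1 a3 a2 (by unfold F4; ring)
    · rw [a0, a1, a2, a3] at hpr; norm_num at hpr
    · rw [a0, a1, a2, a3] at hpr; norm_num at hpr
    · exact mix 1 0 2 3 a1 a0 a2 a3 (by unfold F4; ring)
    · exact mix 1 0 3 2 a1 a0 a3 a2 (by unfold F4; ring)
    · rw [a0, a1, a2, a3] at hpr; norm_num at hpr
    · exact mix 2 0 3 1 a2 a0 a3 a1 (by unfold F4; ring)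
    · rw [a0, a1, a2, a3] at hpr; norm_num at hpr
    · rw [a0, a1, a2, a3] at hpr; norm_num at hpr
    · exact absurd (fun i => by fin_cases i <;> assumption) hno
  · have h0 : ∀ i k, 0 ≤ af (χ i) (p ^ k) := by
      intro i k
      rw [af_pow _ hp, (χ i).map_nonunit hu]
      exact pow_nonneg le_rfl _
    exact ⟨nonneg_mul hp (nonneg_mul hp (nonneg_mul hp (h0 0) (h0 1)) (h0 2)) (h0 3) e,
      fun h => absurd h hu⟩

/-- positivity -/
theorem nn4 : Nn4 := by
  intro m N χ hm hq h1 hno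
  constructor
  · intro n hn
    rcases Nat.eq_zero_or_pos n with rfl | hpos
    · simp
    · rw [(F4_mult χ).multiplicative_factorization _ hpos.ne']
      refine prod_nonneg fun p hp => ?_
      have hp' : p.Prime := Nat.prime_of_mem_primeFactors (by simpa using hp)
      have hple : p ≤ n := Nat.le_of_mem_primeFactors (by simpa using hp)
      exact (F4_pp χ hq h1 hp' (hno p hp' (hple.trans hn)) _).1
  · intro n hpos hc hn
    rw [(F4_mult χ).multiplicative_factorization _ (by positivity)]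
    refine Finset.prod_induction _ (fun x : ℤ => 1 ≤ x) (fun a b ha hb => by nlinarith) le_rfl ?_
    intro p hp
    have hp0 : p ∈ (n ^ 2).primeFactors := by rwa [Nat.support_factorization] at hp
    have hp' : p.Prime := Nat.prime_of_mem_primeFactors hp0
    have hpn : p ∣ n := hp'.dvd_of_dvd_pow (Nat.dvd_of_mem_primeFactors hp0)
    have he : (n ^ 2).factorization p = 2 * n.factorization p := by
      rw [Nat.factorization_pow]; simp
    have hple : p ≤ N := by
      have h2 : p ≤ n := Nat.le_of_dvd hpos hpn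
      nlinarith
    rw [he]
    refine (F4_pp χ hq h1 hp' (hno p hp' hple) _).2 ?_ ⟨n.factorization p, by ring⟩
    rw [ZMod.isUnit_iff_coprime]
    exact Nat.Coprime.coprime_dvd_left hpn hc

end Pool.Agent.L7h60.K4

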